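import Pool.Agent.Lib.H5Z.ZMain

/-!
ZFC does not prove that `β(ω* ∖ {x})` is a Parovicenko space for every `x ∈ ω*`.

Part 1: there is a model `(M, E)` of ZFC satisfying the sentence `GapIn`.
Part 2: if `GapIn` holds in the universe of sets, then `β(ω* ∖ {x})` is not a Parovicenko space for
some `x ∈ ω*`.

All definitions used in the statement are in `Pool/Agent/Lib/H5Z/Defs.lean`.
-/

set_option autoImplicit false

namespace Pool.Agent.Results.MP_633594_lc.NotParovicenko

open Pool.Agent.H5Z

theorem result : (∃ (M : Type 1) (E : M → M → Prop), ModelsZFC E ∧ GapIn E) ∧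
    (GapIn (fun x y : ZFSet.{0} => x ∈ y) →
      ∃ x : OmegaStar, ¬ IsParovicenko (StoneCech {y : OmegaStar // y ≠ x})) :=
  main

end Pool.Agent.Results.MP_633594_lc.NotParovicenko
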